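import Mathlib

/-! Tensor-vanishing maps out of the unit: a triangulated category with a tensor product, a bounded
t-structure and enough projectives in the heart. -/

set_option autoImplicit false
set_option linter.unusedVariables false
set_option linter.unusedSectionVars false

open CategoryTheory MonoidalCategory Limits Pretriangulated Triangulated

namespace Pool.Agent.T57.NS

universe w v u v' u'

section dev

variable {C : Type u} [Category.{v} C] [Abelian C]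
variable {T : Type u'} [Category.{v'} T] [Preadditive T] [HasZeroObject T] [HasShift T ℤ]
  [∀ n : ℤ, (shiftFunctor T n).Additive] [Pretriangulated T] [IsTriangulated T]

/-- `ι` embeds `C` as the heart of the bounded t-structure `t` -/
structure Hrt (t : TStructure T) (ι : C ⥤ T) : Prop where
  bdd : ∀ X : T, ∃ a b : ℤ, t.IsGE X a ∧ t.IsLE X b
  heart : ∀ (X : T) (n : ℤ), t.IsGE X n → t.IsLE X n → ∃ A : C, Nonempty (X ≅ (ι.obj A)⟦-n⟧)
  le : ∀ A, t.IsLE (ι.obj A) 0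
  ext : ∀ (P A : C), Projective P → ∀ n : ℤ, 1 ≤ n → ∀ φ : ι.obj P ⟶ (ι.obj A)⟦n⟧, φ = 0

/-- dévissage -/
theorem dev {t : TStructure T} {ι : C ⥤ T} (h : Hrt t ι) (S : T → Prop)
    (hiso : ∀ X Y : T, (X ≅ Y) → S X → S Y) (hzero : ∀ X : T, IsZero X → S X)
    (hext : ∀ Tr ∈ distTriang T, S Tr.obj₁ → S Tr.obj₃ → S Tr.obj₂) (a : ℤ) (m : ℕ) :
    ∀ (b : ℤ), b = a + m - 1 → (∀ (A : C) (n : ℤ), a ≤ n → n ≤ b → S ((ι.obj A)⟦-n⟧)) →
      ∀ X : T, t.IsGE X a → t.IsLE X b → S X := by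
  induction m with
  | zero =>
    intro b hb _ X h1 h2
    apply hzero
    exact t.isZero X b a (by omega)
  | succ m ih =>
    intro b hb hA X h1 h2
    obtain ⟨X', X'', hX', hX'', f, g, δ, hT⟩ := t.exists_triangle X (b - 1) b (by omega)
    have hX'1 : t.IsLE X' (b - 1) := ⟨hX'⟩
    have hX''1 : t.IsGE X'' b := ⟨hX''⟩
    have hX'2 : t.IsGE X' a := by
      have h3 := inv_rot_of_distTriang _ hT
      refine t.isGE₂ _ h3 a ?_ h1
      have : t.IsGE (X''⟦(-1 : ℤ)⟧) (b + 1) := t.isGE_shift X'' b (-1) (b + 1) (by omega)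
      exact t.isGE_of_ge (X''⟦(-1 : ℤ)⟧) a (b + 1) (by omega)
    have hX''2 : t.IsLE X'' b := by
      have h3 := rot_of_distTriang _ hT
      refine t.isLE₂ _ h3 b h2 ?_
      have : t.IsLE (X'⟦(1 : ℤ)⟧) (b - 2) := t.isLE_shift X' (b - 1) 1 (b - 2) (by omega)
      exact t.isLE_of_le (X'⟦(1 : ℤ)⟧) (b - 2) b (by omega)
    have e1 : S X' := ih (b - 1) (by push_cast at hb; omega)
      (fun A n k1 k2 => hA A n k1 (by omega)) X' hX'2 hX'1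
    have e2 : S X'' := by
      obtain ⟨A, ⟨e⟩⟩ := h.heart X'' b hX''1 hX''2
      exact hiso _ _ e.symm (hA A b (by push_cast at hb; omega) le_rfl)
    exact hext _ hT e1 e2

end dev

section heart

variable {C : Type u} [Category.{v} C] [Abelian C] [MonoidalCategory C] [MonoidalPreadditive C]
  [RigidCategory C]

/-- the tensor product with a projective object is projective -/
theorem proj_tensor (J P : C) (hP : Projective P) : Projective (J ⊗ P) := by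
  have adj1 : tensorLeft J ⊣ tensorLeft (ᘁJ) := tensorLeftAdjunction (ᘁJ) J
  have adj2 : tensorLeft (ᘁJ) ⊣ tensorLeft (ᘁ(ᘁJ)) := tensorLeftAdjunction (ᘁ(ᘁJ)) (ᘁJ)
  have : (tensorLeft (ᘁJ)).PreservesEpimorphisms :=
    Functor.preservesEpimorphisms_of_adjunction adj2
  exact adj1.map_projective P hP

theorem split_tensor (P : C) (hP : Projective P) {B : C} (γ : 𝟙_ C ⟶ B) :
    ∃ (s : image γ ⊗ P ⟶ 𝟙_ C ⊗ P) (ρ : B ⊗ P ⟶ image γ ⊗ P), s ≫ (γ ▷ P) ≫ ρ = 𝟙 _ := by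
  have adj1 : tensorRight P ⊣ tensorRight (Pᘁ) := tensorRightAdjunction P (Pᘁ)
  have adj2 : tensorRight (ᘁP) ⊣ tensorRight P := tensorRightAdjunction (ᘁP) P
  have hE : (tensorRight P).PreservesEpimorphisms :=
    Functor.preservesEpimorphisms_of_adjunction adj1
  have hl : PreservesLimitsOfSize.{0,0} (tensorRight P) := adj2.rightAdjoint_preservesLimits
  have hc : PreservesColimitsOfSize.{0,0} (tensorRight P) := adj1.leftAdjoint_preservesColimits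
  have h1 : Epi (factorThruImage γ ▷ P) := (tensorRight P).map_epi (factorThruImage γ)
  have hJ := proj_tensor (image γ) P hP
  obtain ⟨s, hs⟩ : ∃ s : image γ ⊗ P ⟶ 𝟙_ C ⊗ P, s ≫ (factorThruImage γ ▷ P) = 𝟙 _ :=
    ⟨Projective.factorThru (𝟙 _) (factorThruImage γ ▷ P), Projective.factorThru_comp _ _⟩
  let S : ShortComplex C := ShortComplex.mk (image.ι γ) (cokernel.π (image.ι γ))
    (cokernel.condition _)
  have hS : S.ShortExact :=
    { exact := ShortComplex.exact_cokernel _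
      mono_f := inferInstanceAs (Mono (image.ι γ))
      epi_g := inferInstanceAs (Epi (cokernel.π (image.ι γ))) }
  have hS' : (S.map (tensorRight P)).ShortExact := hS.map_of_exact (tensorRight P)
  have hX : Projective (S.map (tensorRight P)).X₃ := proj_tensor (cokernel (image.ι γ)) P hP
  obtain ⟨ρ, hρ⟩ : ∃ ρ : B ⊗ P ⟶ image γ ⊗ P, (image.ι γ ▷ P) ≫ ρ = 𝟙 _ :=
    ⟨hS'.splittingOfProjective.r, hS'.splittingOfProjective.f_r⟩
  refine ⟨s, ρ, ?_⟩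
  have h3 : γ ▷ P = (factorThruImage γ ▷ P) ≫ (image.ι γ ▷ P) := by
    rw [← comp_whiskerRight, image.fac]
  rw [h3, Category.assoc, reassoc_of% hs, hρ]

theorem tensor_nonzero {J P : C} (p : P ⟶ 𝟙_ C) [Epi p] (hJ : ¬ IsZero J) :
    ¬ IsZero (J ⊗ P) := by
  intro h
  apply hJ
  have adj1 : tensorLeft J ⊣ tensorLeft (ᘁJ) := tensorLeftAdjunction (ᘁJ) J
  have hE : (tensorLeft J).PreservesEpimorphisms :=
    Functor.preservesEpimorphisms_of_adjunction adj1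
  have h1 : Epi (J ◁ p) := (tensorLeft J).map_epi p
  have h2 : IsZero (J ⊗ 𝟙_ C) := IsZero.of_epi (J ◁ p) h
  exact h2.of_iso (ρ_ J).symm

end heart

section main

variable {C : Type u} [Category.{v} C] [Abelian C] [MonoidalCategory C] [MonoidalPreadditive C]
  [RigidCategory C]
variable {T : Type u'} [Category.{v'} T] [Preadditive T] [HasZeroObject T] [HasShift T ℤ]
  [∀ n : ℤ, (shiftFunctor T n).Additive] [Pretriangulated T] [IsTriangulated T]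
  [MonoidalCategory T] [∀ Z : T, (tensorRight Z).CommShift ℤ]
  [∀ Z : T, (tensorRight Z).IsTriangulated]
  {t : TStructure T} {ι : C ⥤ T} [ι.Full] [ι.Faithful] [ι.Additive] [ι.Monoidal]

/-- the tensor product of a shifted object of the heart with an object of the heart -/
noncomputable def shIso (ι : C ⥤ T) [ι.Monoidal] (A P : C) (n : ℤ) :
    ((ι.obj A)⟦n⟧) ⊗ ι.obj P ≅ (ι.obj (A ⊗ P))⟦n⟧ :=
  ((tensorRight (ι.obj P)).commShiftIso n).app (ι.obj A) ≪≫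
    (shiftFunctor T n).mapIso (Functor.Monoidal.μIso ι A P)

theorem V1 (h : Hrt t ι) {P' P : C} (hP' : Projective P') (V : T) (hV : t.IsLE V (-1))
    (φ : ι.obj P' ⟶ V ⊗ ι.obj P) : φ = 0 := by
  obtain ⟨a, b, ha, -⟩ := h.bdd V
  obtain ⟨a', ha'⟩ : ∃ a' : ℤ, a' = min a 0 := ⟨_, rfl⟩
  obtain ⟨m, hm⟩ : ∃ m : ℕ, m = (-a').toNat := ⟨_, rfl⟩
  refine dev h (fun V => ∀ φ : ι.obj P' ⟶ V ⊗ ι.obj P, φ = 0) ?_ ?_ ?_ a' m (-1) ?_ ?_ V
    ?_ hV φ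
  · intro V V' e hS φ
    have h1 := hS (φ ≫ (e.inv ▷ ι.obj P))
    rw [← cancel_mono (e.inv ▷ ι.obj P), h1, zero_comp]
  · intro V hV φ
    have h1 : IsZero (V ⊗ ι.obj P) := (tensorRight (ι.obj P)).map_isZero hV
    exact h1.eq_of_tgt _ _
  · intro Tr hTr h1 h3 φ
    have hd := (tensorRight (ι.obj P)).map_distinguished Tr hTr
    obtain ⟨ψ, hψ⟩ := Triangle.coyoneda_exact₂ _ hd φ (h3 _)
    have h4 : ψ = 0 := h1 ψ
    rw [hψ, h4]
    exact zero_comp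
  · omega
  · intro A n h1 h2 φ
    have h3 := h.ext P' (A ⊗ P) hP' (-n) (by omega) (φ ≫ (shIso ι A P (-n)).hom)
    rw [← cancel_mono (shIso ι A P (-n)).hom, h3, zero_comp]
  · exact t.isGE_of_ge V a' a (by omega)

theorem V2 (h : Hrt t ι) {P B : C} (hP : Projective P) (V : T) (hV : t.IsGE V 1)
    (φ : V ⊗ ι.obj P ⟶ (ι.obj B)⟦(1 : ℤ)⟧) : φ = 0 := by
  obtain ⟨a, b, -, hb⟩ := h.bdd V
  obtain ⟨b', hb'⟩ : ∃ b' : ℤ, b' = max b 0 := ⟨_, rfl⟩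
  obtain ⟨m, hm⟩ : ∃ m : ℕ, m = b'.toNat := ⟨_, rfl⟩
  refine dev h (fun V => ∀ φ : V ⊗ ι.obj P ⟶ (ι.obj B)⟦(1 : ℤ)⟧, φ = 0) ?_ ?_ ?_ 1 m b' ?_ ?_ V
    hV ?_ φ
  · intro V V' e hS φ
    have h1 := hS ((e.hom ▷ ι.obj P) ≫ φ)
    rw [← cancel_epi (e.hom ▷ ι.obj P), h1, comp_zero]
  · intro V hV φ
    have h1 : IsZero (V ⊗ ι.obj P) := (tensorRight (ι.obj P)).map_isZero hV
    exact h1.eq_of_src _ _
  · intro Tr hTr h1 h3 φ
    have hd := (tensorRight (ι.obj P)).map_distinguished Tr hTr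
    obtain ⟨ψ, hψ⟩ := Triangle.yoneda_exact₂ _ hd φ (h1 _)
    have h4 : ψ = 0 := h3 ψ
    rw [hψ, h4]
    exact comp_zero
  · omega
  · intro A n h1 h2 φ
    obtain ⟨ψ, hψ⟩ : ∃ ψ : (ι.obj (A ⊗ P))⟦-n⟧ ⟶ (ι.obj B)⟦(1 : ℤ)⟧,
      ψ = (shIso ι A P (-n)).inv ≫ φ := ⟨_, rfl⟩
    have hψ0 : ψ = 0 := by
      apply (shiftFunctor T n).map_injective
      have h3 := h.ext (A ⊗ P) B (proj_tensor A P hP) (1 + n) (by omega)
        ((shiftFunctorCompIsoId T (-n) n (by omega)).inv.app (ι.obj (A ⊗ P)) ≫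
          (shiftFunctor T n).map ψ ≫ (shiftFunctorAdd' T 1 n (1 + n) rfl).inv.app (ι.obj B))
      rw [← cancel_epi ((shiftFunctorCompIsoId T (-n) n (by omega)).inv.app (ι.obj (A ⊗ P))),
        ← cancel_mono ((shiftFunctorAdd' T 1 n (1 + n) rfl).inv.app (ι.obj B)), Category.assoc,
        h3, Functor.map_zero, comp_zero, zero_comp]
    rw [← cancel_epi (shIso ι A P (-n)).inv, ← hψ, hψ0, comp_zero]
  · exact t.isLE_of_le V b b' (by omega)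

/-- a retract through `g ▷ E` is killed by `f` -/
theorem key {X Y E Z : T} (f : 𝟙_ T ⟶ X) (g : 𝟙_ T ⟶ Y) (hfg : f ⊗ₘ g = 0)
    (k : Z ⟶ 𝟙_ T ⊗ E) (r : Y ⊗ E ⟶ Z) (hk : k ≫ (g ▷ E) ≫ r = 𝟙 Z) : f ▷ Z = 0 := by
  have h1 : (𝟙_ T ◁ g) ≫ (f ▷ Y) = 0 := by
    rw [← hfg, tensorHom_def']
  have h2 : (𝟙_ T) ◁ (g ▷ E) ≫ f ▷ (Y ⊗ E) = 0 := by
    have h3 : ((𝟙_ T ◁ g) ≫ (f ▷ Y)) ▷ E = 0 := by
      rw [h1]
      exact (tensorRight E).map_zero _ _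
    rw [comp_whiskerRight] at h3
    have h4 : (𝟙_ T) ◁ (g ▷ E) ≫ f ▷ (Y ⊗ E) = (α_ _ _ _).inv ≫
        ((𝟙_ T ◁ g) ▷ E ≫ (f ▷ Y) ▷ E) ≫ (α_ _ _ _).hom := by
      simp
    rw [h4, h3, zero_comp, comp_zero]
  calc f ▷ Z = 𝟙_ T ◁ (k ≫ (g ▷ E) ≫ r) ≫ f ▷ Z := by rw [hk]; simp
    _ = 𝟙_ T ◁ k ≫ ((𝟙_ T) ◁ (g ▷ E) ≫ f ▷ (Y ⊗ E)) ≫ X ◁ r := by
        simp only [MonoidalCategory.whiskerLeft_comp, Category.assoc]
        rw [whisker_exchange]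
    _ = 0 := by rw [h2, zero_comp, comp_zero]

theorem abs (h : Hrt t ι) {P : C} (hP : Projective P) (p : P ⟶ 𝟙_ C) [Epi p]
    (hun : ¬ IsZero (𝟙_ C)) {X Y : T} (f : 𝟙_ T ⟶ X) (g : 𝟙_ T ⟶ Y) (hfg : f ⊗ₘ g = 0) :
    ∃ A : C, Projective A ∧ ¬ IsZero A ∧ (f ▷ ι.obj A = 0 ∨ g ▷ ι.obj A = 0) := by
  obtain ⟨Y0, V, hY0, hV, u, q, δ, hT1⟩ := t.exists_triangle Y 0 1 rfl
  have hV1 : t.IsGE V 1 := ⟨hV⟩
  have hY01 : t.IsLE Y0 0 := ⟨hY0⟩
  have h1 : t.IsLE (𝟙_ T) 0 := by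
    have := h.le (𝟙_ C)
    exact t.isLE_of_iso (Functor.Monoidal.εIso ι).symm 0
  have hgq : g ≫ q = 0 := t.zero _ 0 1 (by omega)
  obtain ⟨g', hg'⟩ : ∃ g' : 𝟙_ T ⟶ Y0, g = g' ≫ u :=
    Triangle.coyoneda_exact₂ _ hT1 g hgq
  obtain ⟨V', Q, hV', hQ, v, π, δ', hT2⟩ := t.exists_triangle Y0 (-1) 0 rfl
  have hV'1 : t.IsLE V' (-1) := ⟨hV'⟩
  have hQ1 : t.IsGE Q 0 := ⟨hQ⟩
  have hQ2 : t.IsLE Q 0 := by
    have h3 := rot_of_distTriang _ hT2
    refine t.isLE₂ _ h3 0 hY01 ?_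
    have : t.IsLE (V'⟦(1 : ℤ)⟧) (-2) := t.isLE_shift V' (-1) 1 (-2) (by omega)
    exact t.isLE_of_le (V'⟦(1 : ℤ)⟧) (-2) 0 (by omega)
  obtain ⟨B, ⟨e0⟩⟩ := h.heart Q 0 hQ1 hQ2
  let e : Q ≅ ι.obj B := e0 ≪≫ (shiftFunctorZero' T (-0 : ℤ) (by simp)).app (ι.obj B)
  obtain ⟨γ, hγ⟩ : ∃ γ : 𝟙_ C ⟶ B, ι.map γ =
      (Functor.Monoidal.εIso ι).inv ≫ g' ≫ π ≫ e.hom := ι.map_surjective _
  by_cases hJ : IsZero (image γ)
  · -- the second map is killed by `P`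
    refine ⟨P, hP, fun hz => hun (IsZero.of_epi p hz), Or.inr ?_⟩
    have hγ0 : γ = 0 := by
      rw [← image.fac γ, hJ.eq_of_tgt (factorThruImage γ) 0, zero_comp]
    have h2 : g' ≫ π = 0 := by
      rw [hγ0] at hγ
      have hz : ι.map (0 : 𝟙_ C ⟶ B) = 0 := ι.map_zero _ _
      rw [hz] at hγ
      rw [← cancel_epi (Functor.Monoidal.εIso ι).inv, ← cancel_mono e.hom, Category.assoc,
        Category.assoc, ← hγ, comp_zero, zero_comp]
    obtain ⟨k, hk⟩ : ∃ k : 𝟙_ T ⟶ V', g' = k ≫ v := Triangle.coyoneda_exact₂ _ hT2 g' h2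
    have h3 : k ▷ ι.obj P = 0 := by
      have h4 := V1 h (P' := P) (P := P) hP V' hV'1 ((λ_ (ι.obj P)).inv ≫ k ▷ ι.obj P)
      rw [← cancel_epi (λ_ (ι.obj P)).inv, h4, comp_zero]
    rw [hg', hk, comp_whiskerRight, comp_whiskerRight, h3, zero_comp, zero_comp]
  · refine ⟨image γ ⊗ P, proj_tensor _ P hP, tensor_nonzero p hJ, Or.inl ?_⟩
    obtain ⟨s, ρ, hs⟩ := split_tensor P hP γ
    obtain ⟨a, ha⟩ : ∃ a : Y0 ⊗ ι.obj P ⟶ ι.obj (B ⊗ P), a = ((π ≫ e.hom) ▷ ι.obj P) ≫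
      (Functor.Monoidal.μIso ι B P).hom := ⟨_, rfl⟩
    obtain ⟨r, hr⟩ : ∃ r : Y ⊗ ι.obj P ⟶ ι.obj (B ⊗ P), (u ▷ ι.obj P) ≫ r = a := by
      have hd := (tensorRight (ι.obj P)).map_distinguished _ hT1
      obtain ⟨r, hr, -⟩ := complete_distinguished_triangle_morphism₂ _ _ hd
        (contractible_distinguished (ι.obj (B ⊗ P))) a 0
        ((V2 h hP V hV1 _).trans zero_comp.symm)
      exact ⟨r, hr.trans (Category.comp_id _)⟩
    have h2 : g ▷ ι.obj P ≫ r = ((Functor.Monoidal.εIso ι).hom ▷ ι.obj P) ≫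
        (Functor.Monoidal.μIso ι (𝟙_ C) P).hom ≫ ι.map (γ ▷ P) := by
      have h3 : g' ≫ π ≫ e.hom = (Functor.Monoidal.εIso ι).hom ≫ ι.map γ := by
        rw [hγ, Iso.hom_inv_id_assoc]
      have h4 : ι.map γ ▷ ι.obj P ≫ (Functor.Monoidal.μIso ι B P).hom =
          (Functor.Monoidal.μIso ι (𝟙_ C) P).hom ≫ ι.map (γ ▷ P) := by
        simpa using Functor.LaxMonoidal.μ_natural_left ι γ P
      rw [hg', comp_whiskerRight, Category.assoc, hr, ha, ← Category.assoc, ← comp_whiskerRight,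
        h3, comp_whiskerRight, Category.assoc, h4]
    refine key f g hfg (ι.map s ≫ (Functor.Monoidal.μIso ι (𝟙_ C) P).inv ≫
      ((Functor.Monoidal.εIso ι).inv ▷ ι.obj P)) (r ≫ ι.map ρ) ?_
    have h5 : ((Functor.Monoidal.εIso ι).inv ▷ ι.obj P) ≫
        ((Functor.Monoidal.εIso ι).hom ▷ ι.obj P) = 𝟙 _ := by
      rw [← comp_whiskerRight, Iso.inv_hom_id, id_whiskerRight]
    calc (ι.map s ≫ (Functor.Monoidal.μIso ι (𝟙_ C) P).inv ≫
          ((Functor.Monoidal.εIso ι).inv ▷ ι.obj P)) ≫ g ▷ ι.obj P ≫ r ≫ ι.map ρ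
        = (ι.map s ≫ (Functor.Monoidal.μIso ι (𝟙_ C) P).inv ≫
          ((Functor.Monoidal.εIso ι).inv ▷ ι.obj P)) ≫ (g ▷ ι.obj P ≫ r) ≫ ι.map ρ := by
          simp only [Category.assoc]
      _ = ι.map s ≫ ι.map (γ ▷ P) ≫ ι.map ρ := by
          rw [h2]
          simp only [Category.assoc]
          rw [reassoc_of% h5, Iso.inv_hom_id_assoc]
      _ = 𝟙 _ := by
          rw [← Functor.map_comp, ← Functor.map_comp, hs, CategoryTheory.Functor.map_id]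

end main

end Pool.Agent.T57.NS
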