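import Mathlib

/-! Tensor-vanishing maps out of the unit in `D^b(C)`: definitions. -/

set_option autoImplicit false

open CategoryTheory MonoidalCategory Limits Pretriangulated Triangulated

namespace Pool.Agent.T57.NS

universe w v u u₀

/-- Finite symmetric tensor categories over the field `k`: `C` is a `k`-linear abelian category with
a `k`-bilinear symmetric monoidal structure, rigid (left and right duals), with finite-dimensional
Hom spaces, all objects of finite length (noetherian and artinian), finitely many simple objects up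
to isomorphism, enough projectives, and `End(𝟙) = k`. -/
class FinSymTensorCat (k : Type u₀) [Field k] (C : Type u) [Category.{v} C] [Abelian C]
    [Linear k C] [MonoidalCategory C] [MonoidalPreadditive C] [MonoidalLinear k C]
    [SymmetricCategory C] [RigidCategory C] : Prop where
  finDim : ∀ X Y : C, FiniteDimensional k (X ⟶ Y)
  noetherian : ∀ X : C, IsNoetherianObject X
  artinian : ∀ X : C, IsArtinianObject X
  simples : ∃ S : Set C, S.Finite ∧ ∀ X : C, Simple X → ∃ Y ∈ S, Nonempty (X ≅ Y)
  enough : EnoughProjectives C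
  unit : Function.Bijective fun c : k => c • 𝟙 (𝟙_ C)

section

variable (C : Type u) [Category.{v} C] [Abelian C] [HasDerivedCategory.{w} C]

/-- the embedding `C ⥤ D^b(C)` in degree zero -/
noncomputable def deg0 : C ⥤ DerivedCategory.Bounded C :=
  (DerivedCategory.TStructure.t : TStructure (DerivedCategory C)).bounded.lift
    (DerivedCategory.singleFunctor C 0) (fun _ => ⟨⟨0, inferInstance⟩, ⟨0, inferInstance⟩⟩)

end

section

variable {T : Type u} [Category.{v} T] [MonoidalCategory T]

/-- the tensor powers of an object -/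
def tobj (X : T) : ℕ → T
  | 0 => 𝟙_ T
  | n + 1 => tobj X n ⊗ X

/-- the tensor powers `f^{⊗n} : 𝟙 ≅ 𝟙^{⊗n} ⟶ X^{⊗n}` of a map out of the unit -/
def tpow {X : T} (f : 𝟙_ T ⟶ X) : ∀ n : ℕ, 𝟙_ T ⟶ tobj X n
  | 0 => 𝟙 _
  | n + 1 => (λ_ (𝟙_ T)).inv ≫ (tpow f n ⊗ₘ f)

/-- `f : 𝟙 ⟶ X` is `⊗`-nilpotent on `Z`: `f^{⊗n} ⊗ id_Z = 0` for some `n ≥ 1` -/
def NilpotentOn [HasZeroMorphisms T] {X : T} (f : 𝟙_ T ⟶ X) (Z : T) : Prop :=
  ∃ n : ℕ, 1 ≤ n ∧ tpow f n ▷ Z = 0

end

end Pool.Agent.T57.NS
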