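import Pool.Agent.T57.NS.Defs
import Pool.Agent.T57.NS.Abs

/-! Tensor-vanishing maps out of the unit in `D^b(C)`: the heart. -/

set_option autoImplicit false

open CategoryTheory MonoidalCategory Limits Pretriangulated Triangulated

namespace Pool.Agent.T57.NS

universe w v u u₀

section

variable (C : Type u) [Category.{v} C] [Abelian C] [HasDerivedCategory.{w} C]

open DerivedCategory

/-- the t-structure of `D^b(C)` -/
noncomputable abbrev tb : TStructure (DerivedCategory.Bounded C) :=
  (TStructure.t : TStructure (DerivedCategory C)).onBounded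

instance : (deg0 C).Full where
  map_surjective f := by
    obtain ⟨g, hg⟩ := (singleFunctor C 0).map_surjective ((Bounded.ι (C := C)).map f)
    exact ⟨g, (Bounded.ι (C := C)).map_injective hg⟩
instance : (deg0 C).Faithful where
  map_injective h := (singleFunctor C 0).map_injective (congrArg (Bounded.ι (C := C)).map h)
instance : (deg0 C).Additive where
  map_add {X Y f g} := (Bounded.ι (C := C)).map_injective ((singleFunctor C 0).map_add)

theorem ext_zero {P : C} (hP : Projective P) (A : C) (n : ℤ) (hn : 1 ≤ n)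
    (φ : (singleFunctor C 0).obj P ⟶ ((singleFunctor C 0).obj A)⟦n⟧) : φ = 0 := by
  rw [← cancel_mono (((singleFunctors C).shiftIso n (-n) 0 (by lia)).hom.app A), zero_comp]
  exact from_singleFunctor_obj_eq_zero_of_projective
    (L := (CochainComplex.singleFunctor C (-n)).obj A) _ (-n) (by lia)

theorem hrt : Hrt (tb C) (deg0 C) where
  bdd X := by
    obtain ⟨⟨a, ha⟩, ⟨b, hb⟩⟩ := X.property
    exact ⟨a, b, ⟨ha.ge⟩, ⟨hb.le⟩⟩
  heart X n h1 h2 := by
    have h1' : (TStructure.t : TStructure (DerivedCategory C)).IsGE X.obj n := ⟨h1.ge⟩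
    have h2' : (TStructure.t : TStructure (DerivedCategory C)).IsLE X.obj n := ⟨h2.le⟩
    obtain ⟨A, ⟨e⟩⟩ := exists_iso_singleFunctor_obj_of_isGE_of_isLE X.obj n
    refine ⟨A, ⟨(Bounded.ι (C := C)).preimageIso ?_⟩⟩
    exact e ≪≫ (((singleFunctors C).shiftIso (-n) n 0 (by lia)).app A).symm ≪≫
      (((Bounded.ι (C := C)).commShiftIso (-n)).app ((deg0 C).obj A)).symm
  le A := ⟨(inferInstance : ((singleFunctor C 0).obj A).IsLE 0).le⟩
  ext P A hP n hn φ := by
    apply (Bounded.ι (C := C)).map_injective
    rw [← cancel_mono (((Bounded.ι (C := C)).commShiftIso n).hom.app ((deg0 C).obj A)),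
      Functor.map_zero, zero_comp]
    exact ext_zero C hP A n hn _

end

end Pool.Agent.T57.NS
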